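import Pool.Agent.Helper31.CY.St1
import Pool.Agent.Helper31.CY.St2
import Pool.Agent.Helper31.CY.St3

set_option autoImplicit false

open Set Topology Filter

namespace Pool.Agent.Helper24.CY

open Pool.Agent.Helper31.CY

private lemma pt0 (a b c : ℝ) : pt a b c 0 = a := by simp [pt]
private lemma pt1 (a b c : ℝ) : pt a b c 1 = b := by simp [pt]
private lemma pt2 (a b c : ℝ) : pt a b c 2 = c := by simp [pt]

private lemma rad_nn (x : E3) : 0 ≤ rad x := Real.sqrt_nonneg _

private lemma rad_sq (x : E3) : rad x ^ 2 = x 0 ^ 2 + x 1 ^ 2 := by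
  unfold rad
  exact Real.sq_sqrt (by positivity)

theorem hCLS (hNET : StNET) (hCL2 : StCL2) (hMER : StMER) (hTYP : StTYP) (hRTI : StRTI) :
    StCLS := by
  intro S r0 r1 h hr0 hr1 hh hM hR
  obtain ⟨hN, hY⟩ := hNET S r0 r1 h hr0 hr1 hh hM hR
  obtain ⟨_, hmer, hrot⟩ := hMER S hR
  have key : (Discs S r0 r1 h ∧ ∀ q ∈ Mer S, ¬ YAt (Mer S) q) ∨
      (Catn S r0 r1 h ∧ ∀ q ∈ Mer S, ¬ YAt (Mer S) q) ∨ CatY S r0 r1 h := by
    rcases hCL2 (Mer S) r0 r1 h hN with ⟨h1, h2⟩ | ⟨⟨m, h1⟩, h2⟩ | ⟨ρ, t, hρ, ht, hth, h1⟩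
    · left
      refine ⟨?_, h2⟩
      intro x
      rw [hmer x, h1]
      constructor
      · rintro (⟨a, _, b⟩ | ⟨a, _, b⟩)
        · exact Or.inl ⟨a, b⟩
        · exact Or.inr ⟨a, b⟩
      · rintro (⟨a, b⟩ | ⟨a, b⟩)
        · exact Or.inl ⟨a, rad_nn x, b⟩
        · exact Or.inr ⟨a, rad_nn x, b⟩
    · right; left
      refine ⟨⟨m, ?_, ?_⟩, h2⟩
      · have := ((h1 (r1, h)).1 hN.q1).2.2
        exact this.symm
      · intro x
        rw [hmer x, h1]
    · right; right
      refine ⟨ρ, t, hρ, ht, hth, ?_, ?_, ?_⟩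
      · rcases (h1 (r0, 0)).1 hN.q0 with ⟨_, _, h3⟩ | ⟨h3, _, _⟩
        · have h4 : |(0 : ℝ) - t| = t := by rw [zero_sub, abs_neg, abs_of_pos ht]
          simp only [h4] at h3
          exact h3.symm
        · simp only at h3
          exact absurd h3 (ne_of_lt ht)
      · rcases (h1 (r1, h)).1 hN.q1 with ⟨_, _, h3⟩ | ⟨h3, _, _⟩
        · have h4 : |h - t| = h - t := abs_of_pos (sub_pos.2 hth)
          simp only [h4] at h3
          exact h3.symm
        · simp only at h3
          exact absurd h3 (ne_of_gt hth)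
      · intro x
        rw [hmer x, h1]
        constructor
        · rintro (a | ⟨a, _, b⟩)
          · exact Or.inl a
          · exact Or.inr ⟨a, b⟩
        · rintro (a | ⟨a, b⟩)
          · exact Or.inl a
          · exact Or.inr ⟨a, rad_nn x, b⟩
  constructor
  · rcases key with h1 | h1 | h1
    · exact Or.inl h1.1
    · exact Or.inr (Or.inl h1.1)
    · exact Or.inr (Or.inr h1)
  · rintro ⟨p, hp, hpΓ, hsing⟩
    obtain ⟨hnT, hax, _, _, _⟩ := hTYP S hR p hp
    have hYp : ModelAt S Ycone p := by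
      rcases hsing with h1 | h1
      · exact h1
      · exact absurd h1 hnT
    have hrp : 0 < rad p := by
      rcases (rad_nn p).lt_or_eq with h1 | h1
      · exact h1
      · exfalso
        have h2 := rad_sq p
        rw [← h1] at h2
        have h3 : p 0 = 0 := by nlinarith [sq_nonneg (p 0), sq_nonneg (p 1)]
        have h4 : p 1 = 0 := by nlinarith [sq_nonneg (p 0), sq_nonneg (p 1)]
        exact hax h3 h4 hYp
    obtain ⟨θ, hθ⟩ := hrot p
    obtain ⟨hadd, hzero, _, hmod, _⟩ := hRTI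
    have himg : rot θ '' S = S := by
      apply Set.Subset.antisymm
      · rintro _ ⟨x, hx, rfl⟩
        exact hR θ x hx
      · intro x hx
        refine ⟨rot (-θ) x, hR (-θ) x hx, ?_⟩
        rw [hadd, add_neg_cancel, hzero]
    have hYq : ModelAt S Ycone (pt (rad p) 0 (p 2)) := by
      have := (hmod S Ycone p θ).1 hYp
      rw [himg, hθ] at this
      exact this
    have hqS : pt (rad p) 0 (p 2) ∈ S := by
      rw [← hθ]
      exact hR θ p hp
    have hqΓ : pt (rad p) 0 (p 2) ∉ circ r0 0 ∪ circ r1 h := by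
      intro h1
      apply hpΓ
      rcases h1 with h1 | h1
      · left
        obtain ⟨a, b⟩ := h1
        rw [pt0, pt1] at a
        rw [pt2] at b
        refine ⟨?_, b⟩
        rw [← rad_sq, ← a]
        ring
      · right
        obtain ⟨a, b⟩ := h1
        rw [pt0, pt1] at a
        rw [pt2] at b
        refine ⟨?_, b⟩
        rw [← rad_sq, ← a]
        ring
    have hYA := hY (rad p) (p 2) hrp hqS hqΓ hYq
    have hqN : (rad p, p 2) ∈ Mer S := (hmer p).1 hp
    rcases key with h1 | h1 | h1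
    · exact absurd hYA (h1.2 _ hqN)
    · exact absurd hYA (h1.2 _ hqN)
    · exact h1

end Pool.Agent.Helper24.CY
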